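import Pool.Agent.WR3.StmtsB

/-!
WR3, row UPB: upper bound for the iterates of the 3x+1 map.
-/

namespace Pool.Agent.WR3.H42

open Pool.Agent.WIR Pool.Agent.WR2

theorem od_succ (t b : ℕ) : od (t + 1) b = od t b + (if T^[t] b % 2 = 1 then 1 else 0) := by
  unfold od
  rw [Finset.range_add_one, Finset.filter_insert]
  split_ifs with h
  · rw [Finset.card_insert_of_notMem (by simp)]
  · rw [add_zero]

theorem T_eq' (c : ℕ) : (c % 2 = 0 ∧ 2 * T c = c) ∨ (c % 2 = 1 ∧ 2 * T c = 3 * c + 1) := by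
  unfold T
  split_ifs <;> omega

theorem upb : UpbStmt := by
  refine ⟨fun t => ?_, fun t => ?_⟩
  · induction t with
    | zero =>
      intro b
      simp [od]
    | succ t ih =>
      intro b
      have h1 := ih b
      rw [Function.iterate_succ_apply', od_succ]
      have hpow : (2 : ℕ) ^ (t + 1) = 2 * 2 ^ t := by ring
      rcases T_eq' (T^[t] b) with ⟨hp, hT⟩ | ⟨hp, hT⟩
      · rw [if_neg (by omega), add_zero]
        calc 2 ^ (t + 1) * T (T^[t] b) = 2 ^ t * (2 * T (T^[t] b)) := by ring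
          _ = 2 ^ t * T^[t] b := by rw [hT]
          _ ≤ 3 ^ od t b * (b + 2 ^ t) := h1
          _ ≤ 3 ^ od t b * (b + 2 ^ (t + 1)) := by
            apply Nat.mul_le_mul_left
            omega
      · rw [if_pos hp]
        have h3 : 1 ≤ 3 ^ od t b := Nat.one_le_pow _ _ (by norm_num)
        calc 2 ^ (t + 1) * T (T^[t] b) = 2 ^ t * (2 * T (T^[t] b)) := by ring
          _ = 3 * (2 ^ t * T^[t] b) + 2 ^ t := by rw [hT]; ring
          _ ≤ 3 * (3 ^ od t b * (b + 2 ^ t)) + 3 ^ (od t b + 1) * 2 ^ t := by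
            have : 2 ^ t ≤ 3 ^ (od t b + 1) * 2 ^ t :=
              Nat.le_mul_of_pos_left _ (by positivity)
            omega
          _ = 3 ^ (od t b + 1) * (b + 2 ^ (t + 1)) := by rw [hpow]; ring
  · induction t with
    | zero =>
      intro b
      simp
    | succ t ih =>
      intro b
      have h1 := ih b
      rw [Function.iterate_succ_apply']
      have hT : T^[t] b ≤ 2 * T (T^[t] b) := by
        rcases T_eq' (T^[t] b) with ⟨_, hT⟩ | ⟨_, hT⟩ <;> omega
      calc b ≤ 2 ^ t * T^[t] b := h1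
        _ ≤ 2 ^ t * (2 * T (T^[t] b)) := Nat.mul_le_mul_left _ hT
        _ = 2 ^ (t + 1) * T (T^[t] b) := by ring

end Pool.Agent.WR3.H42
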